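import Mathlib
import Pool.Agent.Results.MP_d31508_co.UpToTwiceK

set_option autoImplicit false

/-!
# Gluing at a vertex, for the extremal problem of MP_d31508_co
-/

open Finset

namespace Pool.Agent.Y722.DK

open Pool.Agent.Results.MP_d31508_co.UpToTwiceK

/-- there is a graph on `n` vertices with at least `e` edges in which no set of exactly `k + 2`
vertices induces a subgraph of minimum degree at least two -/
def Rz (k n e : ℕ) : Prop := ∃ (V : Type) (_ : Fintype V) (_ : DecidableEq V) (H : SimpleGraph V),
  Fintype.card V = n ∧ (∀ S : Finset V, S.card = k + 2 → ¬ Good H S) ∧ 2 * e ≤ E H univ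

lemma Rz.f_le {k n e : ℕ} (h : Rz k n e) : f n k + e ≤ n.choose 2 := by
  classical
  obtain ⟨V, _, _, H, hc, hg, hE⟩ := h
  have φ : V ≃ Fin n := Fintype.equivFinOfCardEq hc
  have hdeg : ∀ (a : Fin n) (S : Finset (Fin n)),
      deg (H.comap φ.symm) a S = deg H (φ.symm a) (S.map φ.symm.toEmbedding) := by
    intro a S
    unfold deg
    rw [filter_map, card_map]
    congr 1
  refine Pool.Agent.Results.MP_d31508_co.UpToTwiceK.f_le (H.comap φ.symm) ?_ ?_
  · intro S hS hgood
    refine hg (S.map φ.symm.toEmbedding) (by rw [card_map, hS]) ?_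
    intro v hv
    rw [mem_map] at hv
    obtain ⟨a, ha, rfl⟩ := hv
    have := hgood a ha
    rw [hdeg] at this
    exact this
  · refine hE.trans ?_
    unfold E
    have : ∑ v : V, deg H v univ = ∑ a : Fin n, deg (H.comap φ.symm) a univ := by
      rw [← Equiv.sum_comp φ.symm]
      apply sum_congr rfl
      intro a _
      rw [hdeg]
      congr 1
      ext x
      simp
    exact this.le

variable {V W : Type}

/-- `H` and `R` side by side, with edges from `v0` to the vertices of `N` -/
def glue (H : SimpleGraph V) (R : SimpleGraph W) (v0 : V) (N : Set W) : SimpleGraph (V ⊕ W) where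
  Adj x y := match x, y with
    | .inl a, .inl b => H.Adj a b
    | .inr a, .inr b => R.Adj a b
    | .inl a, .inr b => a = v0 ∧ b ∈ N
    | .inr a, .inl b => b = v0 ∧ a ∈ N
  symm := ⟨by
    rintro (a | a) (b | b) h
    · exact h.symm
    · exact h
    · exact h
    · exact h.symm⟩
  loopless := ⟨by
    rintro (a | a) h
    · exact h.ne rfl
    · exact h.ne rfl⟩

lemma glue_ll {H : SimpleGraph V} {R : SimpleGraph W} {v0 : V} {N : Set W} {a b : V} :
    (glue H R v0 N).Adj (.inl a) (.inl b) ↔ H.Adj a b := Iff.rfl

lemma glue_rr {H : SimpleGraph V} {R : SimpleGraph W} {v0 : V} {N : Set W} {a b : W} :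
    (glue H R v0 N).Adj (.inr a) (.inr b) ↔ R.Adj a b := Iff.rfl

lemma glue_lr {H : SimpleGraph V} {R : SimpleGraph W} {v0 : V} {N : Set W} {a : V} {b : W} :
    (glue H R v0 N).Adj (.inl a) (.inr b) ↔ a = v0 ∧ b ∈ N := Iff.rfl

lemma glue_rl {H : SimpleGraph V} {R : SimpleGraph W} {v0 : V} {N : Set W} {a : W} {b : V} :
    (glue H R v0 N).Adj (.inr a) (.inl b) ↔ b = v0 ∧ a ∈ N := Iff.rfl

open Classical in
/-- the number of elements of `T` in `N` -/
noncomputable def cN (N : Set W) (T : Finset W) : ℕ := (T.filter fun w => w ∈ N).card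

open Classical in
/-- one if `w ∈ N`, and zero otherwise -/
noncomputable def one (N : Set W) (w : W) : ℕ := if w ∈ N then 1 else 0

lemma deg_inl [DecidableEq V] [DecidableEq W] (H : SimpleGraph V) (R : SimpleGraph W) (v0 : V)
    (N : Set W) (v : V) (S : Finset (V ⊕ W)) :
    deg (glue H R v0 N) (.inl v) S = deg H v S.toLeft + if v = v0 then cN N S.toRight else 0 := by
  classical
  unfold deg cN
  rw [← card_toLeft_add_card_toRight]
  congr 1
  · congr 1
    ext x
    simp only [mem_toLeft, mem_filter, glue_ll]
  · by_cases h : v = v0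
    · rw [if_pos h]
      congr 1
      ext x
      simp only [mem_toRight, mem_filter, glue_lr, h, true_and]
    · rw [if_neg h, card_eq_zero]
      ext x
      simp only [mem_toRight, mem_filter, glue_lr, h, false_and, and_false, notMem_empty]

lemma deg_inr [DecidableEq V] [DecidableEq W] (H : SimpleGraph V) (R : SimpleGraph W) (v0 : V)
    (N : Set W) (w : W) (S : Finset (V ⊕ W)) :
    deg (glue H R v0 N) (.inr w) S = (if v0 ∈ S.toLeft then one N w else 0) +
      deg R w S.toRight := by
  classical
  unfold deg
  rw [← card_toLeft_add_card_toRight]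
  congr 1
  · have e : (S.filter fun u => (glue H R v0 N).Adj (.inr w) u).toLeft =
        if v0 ∈ S.toLeft ∧ w ∈ N then {v0} else ∅ := by
      ext x
      simp only [mem_toLeft, mem_filter, glue_rl]
      split_ifs with h
      · simp only [mem_singleton]
        constructor
        · rintro ⟨_, h1, _⟩
          exact h1
        · rintro rfl
          exact ⟨by simpa using h.1, rfl, h.2⟩
      · simp only [notMem_empty, iff_false]
        rintro ⟨h1, rfl, h2⟩
        exact h ⟨by simpa using h1, h2⟩
    rw [e]
    unfold one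
    by_cases h1 : v0 ∈ S.toLeft <;> by_cases h2 : w ∈ N <;> simp [h1, h2]
  · congr 1
    ext x
    simp only [mem_toRight, mem_filter, glue_rr]

/-- the condition on the graph `R` with the set `N` of attached vertices -/
def Fits (k : ℕ) (R : SimpleGraph W) (N : Set W) : Prop :=
  ∀ T : Finset W, T.Nonempty → (∀ w ∈ T, 2 ≤ one N w + deg R w T) →
    T.card = k ∨ k + 3 ≤ T.card

lemma glue_not_good [DecidableEq V] [DecidableEq W] {k : ℕ} {H : SimpleGraph V}
    {R : SimpleGraph W} {v0 : V} {N : Set W}
    (hH : ∀ S : Finset V, S.card = k + 2 → ¬ Good H S) (hR : Fits k R N)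
    (S : Finset (V ⊕ W)) (hS : S.card = k + 2) : ¬ Good (glue H R v0 N) S := by
  classical
  intro hg
  have hcard := card_toLeft_add_card_toRight (u := S)
  rcases S.toRight.eq_empty_or_nonempty with h0 | hne
  · rw [h0] at hcard
    refine hH S.toLeft (by simpa using hcard.trans hS) ?_
    intro v hv
    have h1 := hg (.inl v) (by simpa using hv)
    rw [deg_inl, h0] at h1
    simpa [cN] using h1
  · have h1 : ∀ w ∈ S.toRight, 2 ≤ one N w + deg R w S.toRight := by
      intro w hw
      have h2 := hg (.inr w) (by simpa using hw)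
      rw [deg_inr] at h2
      split_ifs at h2 <;> omega
    have h2 := hR _ hne h1
    have h3 : ∀ u ∈ S.toLeft, u = v0 := by
      intro u hu
      by_contra hne'
      have h4 := hg (.inl u) (by simpa using hu)
      rw [deg_inl, if_neg hne', add_zero] at h4
      have h5 : deg H u S.toLeft ≤ (S.toLeft.erase u).card := by
        unfold deg
        apply card_le_card
        intro x hx
        rw [mem_filter] at hx
        exact mem_erase.2 ⟨hx.2.ne', hx.1⟩
      rw [card_erase_of_mem hu] at h5
      omega
    have h4 : S.toLeft.card ≤ 1 := by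
      rw [card_le_one]
      intro a ha b hb
      rw [h3 a ha, h3 b hb]
    omega

lemma glue_E [Fintype V] [Fintype W] [DecidableEq V] [DecidableEq W] (H : SimpleGraph V)
    (R : SimpleGraph W) (v0 : V) (N : Set W) :
    E (glue H R v0 N) univ = E H univ + E R univ + 2 * cN N univ := by
  classical
  have hl : (univ : Finset (V ⊕ W)).toLeft = univ := by ext x; simp
  have hr : (univ : Finset (V ⊕ W)).toRight = univ := by ext x; simp
  unfold E
  rw [Fintype.sum_sum_type]
  simp only [deg_inl, deg_inr, hl, hr, mem_univ, if_true]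
  rw [sum_add_distrib, sum_add_distrib, sum_ite_eq' univ v0 (fun _ => cN N univ), if_pos (mem_univ _)]
  have h1 : ∑ w : W, one N w = cN N univ := by
    unfold one cN
    rw [card_filter]
  rw [h1]
  ring

lemma Rz.glue {k n e m e' : ℕ} (h : Rz k n e) (hn : 1 ≤ n) {W : Type} [Fintype W]
    (R : SimpleGraph W) (N : Set W) (hW : Fintype.card W = m) (hR : Fits k R N)
    (hE : 2 * e' ≤ E R univ + 2 * cN N univ) : Rz k (n + m) (e + e') := by
  classical
  obtain ⟨V, _, _, H, hc, hg, hE1⟩ := h
  have hV : Nonempty V := Fintype.card_pos_iff.1 (by omega)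
  obtain ⟨v0⟩ := hV
  refine ⟨V ⊕ W, inferInstance, inferInstance, DK.glue H R v0 N, by simp [hc, hW], ?_, ?_⟩
  · exact fun S hS => glue_not_good hg hR S hS
  · rw [glue_E]
    have : E R univ = E R univ := rfl
    omega

end Pool.Agent.Y722.DK
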