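import Mathlib
import Pool.Agent.Y722.DK.Glue

set_option autoImplicit false

/-!
# Graphs with many edges contain a set of `k + 2` vertices of minimum degree at least two
-/

open Finset

namespace Pool.Agent.Y722.DK

open Pool.Agent.Results.MP_d31508_co.UpToTwiceK

lemma exists_low {k : ℕ} (hk : 2 ≤ k) {ε : ℝ} (hε : 0 < ε) : ∃ N : ℕ, ∀ (V : Type)
    (_ : DecidableEq V) (H : SimpleGraph V), (∀ S : Finset V, S.card = k + 2 → ¬ Good H S) →
    ∀ X : Finset V, N ≤ X.card → X.Nonempty → ∃ v ∈ X, (deg H v X : ℝ) < ε * X.card := by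
  classical
  obtain ⟨N, hN⟩ := Filter.eventually_atTop.1
    (SimpleGraph.eventually_completeEquipartiteGraph_isContained_of_minDegree hε 1 k)
  refine ⟨N, fun V inst H hH X hX hne => ?_⟩
  by_contra hcon
  push Not at hcon
  let e : X ≃ Fin X.card := X.equivFin
  let ψ : Fin X.card → V := fun i => (e.symm i : V)
  have hψ : Function.Injective ψ := Subtype.val_injective.comp e.symm.injective
  have hψm : ∀ i, ψ i ∈ X := fun i => (e.symm i).2
  have hc : 0 < X.card := card_pos.2 hne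
  haveI : Nonempty (Fin X.card) := ⟨⟨0, hc⟩⟩
  have hmin : (((H.comap ψ).minDegree : ℕ) : ℝ) ≥ (1 - 1 / ((1 : ℕ) : ℝ) + ε) * (X.card : ℕ) := by
    obtain ⟨v, hv⟩ := (H.comap ψ).exists_minimal_degree_vertex
    rw [hv]
    have h1 : (H.comap ψ).degree v = deg H (ψ v) X := by
      unfold deg
      rw [← SimpleGraph.card_neighborFinset_eq_degree]
      rw [← card_map ⟨ψ, hψ⟩]
      congr 1
      ext x
      simp only [mem_map, SimpleGraph.mem_neighborFinset, SimpleGraph.comap_adj, mem_filter,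
        Function.Embedding.coeFn_mk]
      constructor
      · rintro ⟨i, hi, rfl⟩
        exact ⟨hψm i, hi⟩
      · rintro ⟨hx, hadj⟩
        refine ⟨e ⟨x, hx⟩, ?_, ?_⟩
        · simpa [ψ] using hadj
        · simp [ψ]
    rw [h1]
    have h2 := hcon (ψ v) (hψm v)
    have e1 : (1 - 1 / ((1 : ℕ) : ℝ) + ε) = ε := by norm_num
    rw [e1]
    exact h2
  obtain ⟨φ⟩ := hN _ hX hmin
  let τ : Fin 2 ⊕ Fin k → Fin 2 × Fin k := fun x => match x with
    | .inl i => (0, ⟨i.val, by omega⟩)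
    | .inr j => (1, j)
  have hτ : Function.Injective τ := by
    rintro (a | a) (b | b) h
    · simp only [τ, Prod.mk.injEq, true_and, Fin.mk.injEq] at h
      exact congrArg _ (Fin.ext h)
    · simp [τ] at h
    · simp [τ] at h
    · simp only [τ, Prod.mk.injEq, true_and] at h
      exact congrArg _ h
  let χ : Fin 2 ⊕ Fin k → V := fun x => ψ (φ (τ x))
  have hχ : Function.Injective χ := hψ.comp (φ.injective.comp hτ)
  have hadj : ∀ (i : Fin 2) (j : Fin k), H.Adj (χ (.inl i)) (χ (.inr j)) := by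
    intro i j
    have h1 : (SimpleGraph.completeEquipartiteGraph (1 + 1) k).Adj (τ (.inl i)) (τ (.inr j)) := by
      rw [SimpleGraph.completeEquipartiteGraph_adj]
      simp [τ]
    exact φ.toHom.map_adj h1
  have hmem : ∀ x, χ x ∈ univ.map ⟨χ, hχ⟩ := fun x => mem_map.2 ⟨x, mem_univ _, rfl⟩
  refine hH (univ.map ⟨χ, hχ⟩) (by rw [card_map]; simp [add_comm]) ?_
  intro v hv
  rw [mem_map] at hv
  obtain ⟨x, -, rfl⟩ := hv
  unfold deg
  rw [Nat.succ_le_iff, one_lt_card]
  rcases x with i | j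
  · refine ⟨χ (.inr ⟨0, by omega⟩), ?_, χ (.inr ⟨1, by omega⟩), ?_, ?_⟩
    · rw [mem_filter]
      exact ⟨hmem (.inr ⟨0, by omega⟩), hadj _ _⟩
    · rw [mem_filter]
      exact ⟨hmem (.inr ⟨1, by omega⟩), hadj _ _⟩
    · intro h
      have := @hχ (.inr ⟨0, by omega⟩) (.inr ⟨1, by omega⟩) h
      simp at this
  · refine ⟨χ (.inl 0), ?_, χ (.inl 1), ?_, ?_⟩
    · rw [mem_filter]
      exact ⟨hmem (.inl 0), (hadj _ _).symm⟩
    · rw [mem_filter]
      exact ⟨hmem (.inl 1), (hadj _ _).symm⟩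
    · intro h
      have := @hχ (.inl 0) (.inl 1) h
      simp at this

lemma E_le {k : ℕ} (hk : 2 ≤ k) {ε : ℝ} (hε : 0 < ε) : ∃ C : ℝ, 0 ≤ C ∧ ∀ (V : Type)
    (_ : DecidableEq V) (H : SimpleGraph V), (∀ S : Finset V, S.card = k + 2 → ¬ Good H S) →
    ∀ (m : ℕ) (X : Finset V), X.card = m → (E H X : ℝ) ≤ C + ε * (m * (m + 1)) := by
  classical
  obtain ⟨N, hN⟩ := exists_low hk hε
  refine ⟨(N : ℝ) * N, by positivity, fun V inst H hH m => ?_⟩
  induction m with
  | zero =>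
    intro X hX
    rw [card_eq_zero] at hX
    subst hX
    unfold E
    simp
    positivity
  | succ m ih =>
    intro X hX
    by_cases hm : N ≤ m + 1
    · obtain ⟨v, hv, hlt⟩ := hN V inst H hH X (by omega) (card_pos.1 (by omega))
      have h1 := E_erase (H := H) hv
      have h2 := ih (X.erase v) (by rw [card_erase_of_mem hv]; omega)
      rw [h1]
      push_cast
      rw [hX] at hlt
      push_cast at hlt
      nlinarith
    · have h1 : E H X ≤ N * N := by
        unfold E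
        calc ∑ v ∈ X, deg H v X ≤ ∑ _v ∈ X, X.card := sum_le_sum fun v _ => deg_le_card v X
          _ = X.card * X.card := by rw [sum_const, smul_eq_mul]
          _ ≤ N * N := Nat.mul_le_mul (by omega) (by omega)
      have h2 : (E H X : ℝ) ≤ N * N := by exact_mod_cast h1
      have : 0 ≤ ε * (((m + 1 : ℕ) : ℝ) * (((m + 1 : ℕ) : ℝ) + 1)) := by positivity
      linarith

/-- `f(n,k) = (1 - o(1)) n ^ 2 / 2` for every fixed `k ≥ 2` -/
lemma dense {k : ℕ} (hk : 2 ≤ k) {ε : ℝ} (hε : 0 < ε) : ∃ N : ℕ, ∀ n ≥ N,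
    (1 - ε) * (n.choose 2 : ℝ) ≤ f n k := by
  classical
  obtain ⟨C, hC0, hC⟩ := E_le hk (show 0 < ε / 4 by positivity)
  refine ⟨⌈2 * C / ε⌉₊ + 3, fun n hn => ?_⟩
  have hne : {e | ∃ G : SimpleGraph (Fin n), HasP k G ∧ G.edgeSet.ncard = e}.Nonempty := by
    refine ⟨_, ⊤, ?_, rfl⟩
    rw [hasP_iff]
    intro S hS hg
    obtain ⟨v, hv⟩ := card_pos.1 (show 0 < S.card by omega)
    have h1 := hg v hv
    unfold deg at h1
    simp at h1
  obtain ⟨G, hG, hGe⟩ := Nat.sInf_mem hne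
  rw [hasP_iff] at hG
  have h1 := hC (Fin n) inferInstance Gᶜ hG n univ (by simp)
  have h3 := E_compl (H := G) univ
  have h4 := E_univ G
  have h5 := two_choose n
  rw [card_univ, Fintype.card_fin, ← h5] at h3
  have h6 : G.edgeSet.ncard = f n k := hGe
  rw [h4, h6] at h3
  have h7 : 2 * (f n k : ℝ) + E Gᶜ univ = 2 * (n.choose 2 : ℝ) := by exact_mod_cast h3
  have h8 : 2 * (n.choose 2 : ℝ) = n * (n - 1) := by
    have h9 : ((2 * n.choose 2 : ℕ) : ℝ) = ((n * (n - 1) : ℕ) : ℝ) := by rw [h5]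
    rw [Nat.cast_mul, Nat.cast_mul, Nat.cast_sub (by omega)] at h9
    simpa using h9
  have hn1 : 2 * C / ε + 3 ≤ n := by
    have h9 := Nat.le_ceil (2 * C / ε)
    have h10 : ((⌈2 * C / ε⌉₊ + 3 : ℕ) : ℝ) ≤ n := by exact_mod_cast hn
    push_cast at h10
    linarith
  have hn3 : (3 : ℝ) ≤ n := by
    have : 0 ≤ 2 * C / ε := by positivity
    linarith
  have h9 : 2 * C ≤ ε * (n - 3) := by
    have : 2 * C / ε ≤ n - 3 := by linarith
    rw [div_le_iff₀ hε] at this
    linarith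
  have h10 : C ≤ ε / 2 * (n * (n - 1)) := by
    have h11 : ε * ((n : ℝ) - 3) ≤ ε * (n * (n - 1)) := by
      apply mul_le_mul_of_nonneg_left _ hε.le
      nlinarith
    linarith
  have h11 : ε / 4 * ((n : ℝ) * (n + 1)) ≤ ε / 2 * (n * (n - 1)) := by
    have : (n : ℝ) * (n + 1) ≤ 2 * (n * (n - 1)) := by nlinarith
    nlinarith
  have h12 : (E Gᶜ univ : ℝ) ≤ ε * (n * (n - 1)) := by linarith
  rw [← h8] at h12
  linarith

end Pool.Agent.Y722.DK
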