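import Mathlib
import Pool.Agent.Y722.DK.Glue
import Pool.Agent.H709Exc.J_girth_graph

set_option autoImplicit false

/-!
# Steps: a clique, a pendant vertex, a cycle through a vertex, graphs of large girth
-/

open Finset

namespace Pool.Agent.Y722.DK

open Pool.Agent.Results.MP_d31508_co.UpToTwiceK

/-- the complete graph on `k + 1` vertices -/
lemma Rz.clique (k : ℕ) : Rz k (k + 1) ((k + 1).choose 2) := by
  classical
  refine ⟨Fin (k + 1), inferInstance, inferInstance, ⊤, by simp, ?_, ?_⟩
  · intro S hS
    have := card_le_univ S
    simp at this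
    omega
  · rw [E_univ, ← Nat.card_coe_set_eq, Nat.card_eq_fintype_card]
    have h1 := SimpleGraph.card_edgeFinset_top_eq_card_choose_two (V := Fin (k + 1))
    rw [SimpleGraph.edgeFinset, Set.toFinset_card, Fintype.card_fin] at h1
    have : Fintype.card ↑(⊤ : SimpleGraph (Fin (k + 1))).edgeSet = (k + 1).choose 2 := by
      rw [← h1]
    rw [this]

/-- one vertex -/
lemma Rz.single (k : ℕ) : Rz k 1 0 := by
  classical
  refine ⟨Fin 1, inferInstance, inferInstance, ⊤, by simp, ?_, by simp⟩
  intro S hS
  have := card_le_univ S
  simp at this
  omega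

/-- a pendant vertex -/
lemma Rz.pendant {k n e : ℕ} (h : Rz k n e) (hn : 1 ≤ n) : Rz k (n + 1) (e + 1) := by
  classical
  refine h.glue hn (W := Unit) ⊥ Set.univ (by simp) ?_ ?_
  · intro T hT h1
    exfalso
    obtain ⟨w, hw⟩ := hT
    have h2 := h1 w hw
    have h3 : deg (⊥ : SimpleGraph Unit) w T = 0 := by
      unfold deg
      simp
    have h4 : one (Set.univ : Set Unit) w ≤ 1 := by
      unfold one
      simp
    omega
  · unfold cN
    simp

/-- the path `0, 1, …, k - 1` -/
def path (k : ℕ) : SimpleGraph (Fin k) where
  Adj i j := i.val + 1 = j.val ∨ j.val + 1 = i.val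
  symm := ⟨fun _ _ h => h.symm⟩
  loopless := ⟨fun i h => by rcases h with h | h <;> omega⟩

/-- the two ends of the path -/
def ends (k : ℕ) : Set (Fin k) := {i | i.val = 0 ∨ i.val + 1 = k}

lemma path_le {k : ℕ} (hk : 2 ≤ k) (w : Fin k) (T : Finset (Fin k)) (h : 2 ≤ one (ends k) w + deg (path k) w T) :
    (∀ u : Fin k, u.val = w.val + 1 → u ∈ T) ∧ (∀ u : Fin k, u.val + 1 = w.val → u ∈ T) := by
  classical
  constructor
  · intro u hu
    by_contra hT
    have h1 : deg (path k) w T ≤ if w.val = 0 then 0 else 1 := by
      unfold deg
      split_ifs with h0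
      · rw [Nat.le_zero, card_eq_zero, filter_eq_empty_iff]
        intro x hx hadj
        rcases hadj with h2 | h2
        · apply hT
          have : x = u := Fin.ext (by omega)
          rwa [this] at hx
        · omega
      · rw [card_le_one]
        intro a ha b hb
        rw [mem_filter] at ha hb
        have h2 : a.val + 1 = w.val := by
          rcases ha.2 with h2 | h2
          · exfalso
            apply hT
            have : a = u := Fin.ext (by omega)
            rw [← this]
            exact ha.1
          · exact h2
        have h3 : b.val + 1 = w.val := by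
          rcases hb.2 with h2 | h2
          · exfalso
            apply hT
            have : b = u := Fin.ext (by omega)
            rw [← this]
            exact hb.1
          · exact h2
        exact Fin.ext (by omega)
    have h2 : one (ends k) w ≤ if w.val = 0 then 1 else 0 := by
      unfold one ends
      have := u.isLt
      split_ifs with h3 h4 h4
      · exact le_rfl
      · rcases h3 with h3 | h3
        · exact absurd h3 h4
        · omega
      · exact Nat.zero_le _
      · exact le_rfl
    split_ifs at h1 h2 <;> omega
  · intro u hu
    by_contra hT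
    have h1 : deg (path k) w T ≤ if w.val + 1 = k then 0 else 1 := by
      unfold deg
      split_ifs with h0
      · rw [Nat.le_zero, card_eq_zero, filter_eq_empty_iff]
        intro x hx hadj
        rcases hadj with h2 | h2
        · have := x.isLt
          omega
        · apply hT
          have : x = u := Fin.ext (by omega)
          rwa [this] at hx
      · rw [card_le_one]
        intro a ha b hb
        rw [mem_filter] at ha hb
        have h2 : w.val + 1 = a.val := by
          rcases ha.2 with h2 | h2
          · exact h2
          · exfalso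
            apply hT
            have : a = u := Fin.ext (by omega)
            rw [← this]
            exact ha.1
        have h3 : w.val + 1 = b.val := by
          rcases hb.2 with h2 | h2
          · exact h2
          · exfalso
            apply hT
            have : b = u := Fin.ext (by omega)
            rw [← this]
            exact hb.1
        exact Fin.ext (by omega)
    have h2 : one (ends k) w ≤ if w.val + 1 = k then 1 else 0 := by
      unfold one ends
      split_ifs with h3 h4 h4
      · exact le_rfl
      · rcases h3 with h3 | h3
        · omega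
        · exact absurd h3 h4
      · exact Nat.zero_le _
      · exact le_rfl
    split_ifs at h1 h2 <;> omega

lemma path_fits {k : ℕ} (hk : 2 ≤ k) : Fits k (path k) (ends k) := by
  classical
  intro T hT h
  left
  obtain ⟨w, hw⟩ := hT
  have hup : ∀ d : ℕ, ∀ u : Fin k, u.val = w.val + d → u ∈ T := by
    intro d
    induction d with
    | zero =>
      intro u hu
      have : u = w := Fin.ext (by omega)
      rwa [this]
    | succ d ih =>
      intro u hu
      have h1 := ih ⟨w.val + d, by have := u.isLt; omega⟩ rfl
      exact (path_le hk _ T (h _ h1)).1 u (by simp; omega)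
  have hdn : ∀ d : ℕ, ∀ u : Fin k, u.val + d = w.val → u ∈ T := by
    intro d
    induction d with
    | zero =>
      intro u hu
      have : u = w := Fin.ext (by omega)
      rwa [this]
    | succ d ih =>
      intro u hu
      have h1 := ih ⟨u.val + 1, by have := w.isLt; omega⟩ (by simp; omega)
      exact (path_le hk _ T (h _ h1)).2 u (by simp)
  have : T = univ := by
    rw [eq_univ_iff_forall]
    intro u
    rcases le_total w.val u.val with h1 | h1
    · exact hup (u.val - w.val) u (by omega)
    · exact hdn (w.val - u.val) u (by omega)
  rw [this, card_univ, Fintype.card_fin]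

lemma path_deg {k : ℕ} (hk : 2 ≤ k) (w : Fin k) : 2 ≤ one (ends k) w + deg (path k) w univ := by
  classical
  have hw := w.isLt
  by_cases h0 : w.val = 0
  · have h1 : one (ends k) w = 1 := by
      unfold one ends
      simp [h0]
    have h2 : 1 ≤ deg (path k) w univ := by
      unfold deg
      rw [Nat.one_le_iff_ne_zero, ← Nat.pos_iff_ne_zero, card_pos]
      exact ⟨⟨w.val + 1, by omega⟩, by rw [mem_filter]; exact ⟨mem_univ _, Or.inl rfl⟩⟩
    omega
  · by_cases h1 : w.val + 1 = k
    · have h2 : one (ends k) w = 1 := by
        unfold one ends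
        simp [h1]
      have h3 : 1 ≤ deg (path k) w univ := by
        unfold deg
        rw [Nat.one_le_iff_ne_zero, ← Nat.pos_iff_ne_zero, card_pos]
        refine ⟨⟨w.val - 1, by omega⟩, ?_⟩
        rw [mem_filter]
        refine ⟨mem_univ _, Or.inr ?_⟩
        simp
        omega
      omega
    · have h2 : 2 ≤ deg (path k) w univ := by
        unfold deg
        rw [Nat.succ_le_iff, one_lt_card]
        refine ⟨⟨w.val - 1, by omega⟩, ?_, ⟨w.val + 1, by omega⟩, ?_, ?_⟩
        · rw [mem_filter]
          refine ⟨mem_univ _, Or.inr ?_⟩
          simp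
          omega
        · rw [mem_filter]
          exact ⟨mem_univ _, Or.inl rfl⟩
        · intro h
          have := congrArg Fin.val h
          simp at this
      omega

/-- a cycle of length `k + 1` through a vertex -/
lemma Rz.cycle {k n e : ℕ} (h : Rz k n e) (hn : 1 ≤ n) (hk : 2 ≤ k) :
    Rz k (n + k) (e + (k + 1)) := by
  classical
  refine h.glue hn (path k) (ends k) (by simp) (path_fits hk) ?_
  have h1 : 2 * k ≤ cN (ends k) univ + E (path k) univ := by
    have h2 : cN (ends k) univ = ∑ w : Fin k, one (ends k) w := by
      unfold cN one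
      rw [card_filter]
    rw [h2]
    unfold E
    rw [← sum_add_distrib]
    calc 2 * k = ∑ _w : Fin k, 2 := by simp [mul_comm]
      _ ≤ _ := sum_le_sum fun w _ => path_deg hk w
  have h2 : 2 ≤ cN (ends k) univ := by
    unfold cN
    rw [Nat.succ_le_iff, one_lt_card]
    refine ⟨⟨0, by omega⟩, ?_, ⟨k - 1, by omega⟩, ?_, ?_⟩
    · rw [mem_filter]
      exact ⟨mem_univ _, Or.inl rfl⟩
    · rw [mem_filter]
      refine ⟨mem_univ _, Or.inr ?_⟩
      simp
      omega
    · intro h
      have := congrArg Fin.val h
      simp at this
      omega
  omega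

lemma Rz.pendants {k n e : ℕ} (h : Rz k n e) (hn : 1 ≤ n) (m : ℕ) : Rz k (n + m) (e + m) := by
  induction m with
  | zero => exact h
  | succ m ih => exact ih.pendant (by omega)

lemma Rz.cycles {k n e : ℕ} (h : Rz k n e) (hn : 1 ≤ n) (hk : 2 ≤ k) (j : ℕ) :
    Rz k (n + j * k) (e + j * (k + 1)) := by
  induction j with
  | zero => simpa using h
  | succ j ih =>
    have := ih.cycle (by omega) hk
    have e1 : n + j * k + k = n + (j + 1) * k := by ring
    have e2 : e + j * (k + 1) + (k + 1) = e + (j + 1) * (k + 1) := by ring
    rwa [e1, e2] at this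

/-- the explicit bound -/
lemma explicit {k n : ℕ} (hk : 2 ≤ k) (hn : k + 1 ≤ n) :
    f n k + (k + 1).choose 2 + (n - k - 1) + (n - k - 1) / k ≤ n.choose 2 := by
  obtain ⟨m, rfl⟩ : ∃ m, n = k + 1 + m := ⟨n - (k + 1), by omega⟩
  have e0 : k + 1 + m - k - 1 = m := by omega
  rw [e0]
  have h1 := ((Rz.clique k).cycles (by omega) hk (m / k)).pendants (by omega) (m % k)
  have h2 := Nat.div_add_mod m k
  have e1 : k + 1 + m / k * k + m % k = k + 1 + m := by
    rw [mul_comm (m / k) k]
    omega
  rw [e1] at h1
  have h3 := h1.f_le
  have e2 : m / k * (k + 1) = k * (m / k) + m / k := by ring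
  omega

end Pool.Agent.Y722.DK
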