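import Mathlib
import Pool.Agent.Y722.DK.Steps

set_option autoImplicit false

/-!
# Graphs of large girth and large minimum degree
-/

open Finset

namespace Pool.Agent.Y722.DK

open Pool.Agent.Results.MP_d31508_co.UpToTwiceK

lemma not_acyclic {X : Type} [Fintype X] [Nonempty X] (G : SimpleGraph X)
    (h : ∀ x, ∃ a b, a ≠ b ∧ G.Adj x a ∧ G.Adj x b) : ¬ G.IsAcyclic := by
  classical
  intro hac
  obtain ⟨x⟩ := ‹Nonempty X›
  have ht := hac.isTree_connectedComponent (G.connectedComponentMk x)
  set c := G.connectedComponentMk x with hc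
  have hadj : ∀ v a : X, v ∈ c.supp → G.Adj v a → a ∈ c.supp := by
    intro v a hv hva
    rw [SimpleGraph.ConnectedComponent.mem_supp_iff] at hv ⊢
    rw [← hv]
    exact (SimpleGraph.ConnectedComponent.connectedComponentMk_eq_of_adj hva).symm
  have hx : x ∈ c.supp := rfl
  obtain ⟨a0, b0, -, hxa, -⟩ := h x
  have hnt : Nontrivial c.supp :=
    ⟨⟨x, hx⟩, ⟨a0, hadj x a0 hx hxa⟩, fun e => hxa.ne (congrArg Subtype.val e)⟩
  have ht' : (G.induce c.supp).IsTree := ht
  obtain ⟨v, hv⟩ := ht'.exists_vert_degree_one_of_nontrivial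
  rw [SimpleGraph.degree_eq_one_iff_existsUnique_adj] at hv
  obtain ⟨w, -, hw⟩ := hv
  obtain ⟨a, b, hab, ha, hb⟩ := h v
  have h1 := hw ⟨a, hadj _ _ v.2 ha⟩ ha
  have h2 := hw ⟨b, hadj _ _ v.2 hb⟩ hb
  apply hab
  have := h1.trans h2.symm
  exact congrArg Subtype.val this

lemma good_card {W : Type} {R : SimpleGraph W} {g : ℕ}
    (hg : ∀ (v : W) (w : R.Walk v v), w.IsCycle → g < w.length) {T : Finset W}
    (hT : T.Nonempty) (h : ∀ w ∈ T, 2 ≤ deg R w T) : g < T.card := by
  classical
  have hne : Nonempty T := hT.to_subtype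
  have h1 : ¬ (R.induce (T : Set W)).IsAcyclic := by
    apply not_acyclic (X := (T : Set W))
    rintro ⟨x, hx⟩
    have h2 := h x hx
    unfold deg at h2
    rw [Nat.succ_le_iff, one_lt_card] at h2
    obtain ⟨a, ha, b, hb, hab⟩ := h2
    rw [mem_filter] at ha hb
    exact ⟨⟨a, ha.1⟩, ⟨b, hb.1⟩, fun e => hab (congrArg Subtype.val e), ha.2, hb.2⟩
  unfold SimpleGraph.IsAcyclic at h1
  push Not at h1
  obtain ⟨v, c, hc⟩ := h1
  have h6 : (c.map (SimpleGraph.Embedding.induce (G := R) (T : Set W)).toHom).IsCycle :=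
    hc.map (SimpleGraph.Embedding.induce (G := R) (T : Set W)).injective
  have h3 := hg _ _ h6
  rw [SimpleGraph.Walk.length_map] at h3
  have h4 := hc.support_nodup.length_le_card
  rw [List.length_tail, SimpleGraph.Walk.length_support] at h4
  have h5 : Fintype.card (T : Set W) = T.card := by simp
  rw [h5] at h4
  omega

/-- for every fixed `k` the number of missing edges is superlinear in `n` -/
lemma superlinear (k M : ℕ) : ∃ N : ℕ, ∀ n ≥ N, f n k + M * n ≤ n.choose 2 := by
  classical
  obtain ⟨W, hF, hne, R, hd, hg⟩ := Pool.Agent.H709Exc.girth_graph.{0} (4 * M) (k + 2)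
  have hW : 1 ≤ Fintype.card W := Fintype.card_pos
  set L := Fintype.card W with hL
  have hfit : Fits k R (∅ : Set W) := by
    intro T hT h
    right
    have : k + 2 < T.card := by
      apply good_card hg hT
      intro w hw
      have h1 := h w hw
      have h2 : one (∅ : Set W) w = 0 := by
        unfold one
        simp
      omega
    omega
  have hE : 2 * (2 * M * L) ≤ E R univ + 2 * cN (∅ : Set W) univ := by
    have : ∑ _w : W, 4 * M ≤ E R univ := by
      unfold E
      apply sum_le_sum
      intro w _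
      obtain ⟨S, hS, hadj⟩ := hd w
      refine hS.trans ?_
      unfold deg
      apply card_le_card
      intro u hu
      rw [mem_filter]
      exact ⟨mem_univ _, hadj u hu⟩
    rw [sum_const, card_univ, smul_eq_mul, ← hL] at this
    have e : 2 * (2 * M * L) = L * (4 * M) := by ring
    omega
  have hstep : ∀ j : ℕ, Rz k (1 + j * L) (j * (2 * M * L)) := by
    intro j
    induction j with
    | zero => simpa using Rz.single k
    | succ j ih =>
      have := ih.glue (by omega) R ∅ rfl hfit hE
      have e1 : 1 + j * L + Fintype.card W = 1 + (j + 1) * L := by rw [← hL]; ring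
      have e2 : j * (2 * M * L) + 2 * M * L = (j + 1) * (2 * M * L) := by ring
      rwa [e1, e2] at this
  refine ⟨2 * L + 2, fun n hn => ?_⟩
  have h1 := (hstep ((n - 1) / L)).pendants (by omega) ((n - 1) % L)
  have h2 := Nat.div_add_mod (n - 1) L
  have h3 := Nat.mod_lt (n - 1) (show L > 0 by omega)
  have e1 : 1 + (n - 1) / L * L + (n - 1) % L = n := by
    rw [mul_comm ((n - 1) / L) L]
    omega
  rw [e1] at h1
  have h4 := h1.f_le
  have h5 : n - L ≤ (n - 1) / L * L := by
    rw [mul_comm]
    omega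
  have h6 : M * n ≤ (n - 1) / L * (2 * M * L) := by
    calc M * n ≤ M * (2 * (n - L)) := Nat.mul_le_mul le_rfl (by omega)
      _ ≤ M * (2 * ((n - 1) / L * L)) := by gcongr
      _ = _ := by ring
  omega

end Pool.Agent.Y722.DK
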